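import Mathlib

/-!
In characteristic 3 the product of the four linear forms `x`, `x - y`, `x + y`, `y` is
`x ^ 3 * y - x * y ^ 3`.  When `x` and `y` are linear forms in five variables every monomial of this
product contains a cube, although the hypergraph of supports has edge density below 1.
-/

open Finset MvPolynomial

namespace Pool.Agent.Results.MP_3821a3_co.CharThree

/-- The Alon-Tarsi number: one more than the least, over monomials of top degree with nonzero
coefficient, of the largest exponent. -/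
noncomputable def alonTarsi {n : ℕ} {F : Type*} [Field F] (p : MvPolynomial (Fin n) F) : ℕ :=
  sInf {m : ℕ | ∃ α ∈ p.support, (∑ i, α i) = p.totalDegree ∧ m = univ.sup (fun i => α i)} + 1

/-- The edge density: the largest value of (number of edges inside `X`) / `|X|` over nonempty
vertex sets `X`. -/
noncomputable def edgeDensity {n : ℕ} (E : Finset (Finset (Fin n))) : ℝ :=
  sSup {r : ℝ | ∃ X : Finset (Fin n), X.Nonempty ∧
    r = ((E.filter (fun e => e ⊆ X)).card : ℝ) / (X.card : ℝ)}

/-- The hypergraph polynomial with coefficients `a e i`. -/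
noncomputable def hyperPoly {n : ℕ} {F : Type*} [Field F] (E : Finset (Finset (Fin n)))
    (a : Finset (Fin n) → Fin n → F) : MvPolynomial (Fin n) F :=
  ∏ e ∈ E, ∑ i ∈ e, C (a e i) * X i

/-- The four edges. -/
def edges : Finset (Finset (Fin 5)) := {{1, 2, 3}, {0, 2, 3, 4}, {0, 1, 3, 4}, {0, 1, 2, 4}}

/-- The vertex of each edge (one or two of them) that carries the coefficient `-1`. -/
def neg (e : Finset (Fin 5)) (i : Fin 5) : Prop :=
  (e = {1, 2, 3} ∧ i = 2) ∨ (e = {0, 2, 3, 4} ∧ i = 0) ∨ (e = {0, 1, 3, 4} ∧ (i = 1 ∨ i = 4)) ∨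
    (e = {0, 1, 2, 4} ∧ i = 4)

instance (e : Finset (Fin 5)) (i : Fin 5) : Decidable (neg e i) := by
  unfold neg; infer_instance

theorem cube_support {F : Type*} [Field F] (g : Fin 5 → MvPolynomial (Fin 5) F)
    (α : Fin 5 →₀ ℕ) (h : α ∈ (∑ i, X i ^ 3 * g i).support) : ∃ i, 3 ≤ α i := by
  by_contra hc
  push Not at hc
  apply mem_support_iff.mp h
  rw [coeff_sum]
  refine sum_eq_zero (fun i _ => ?_)
  rw [X_pow_eq_monomial, coeff_monomial_mul', if_neg]
  intro hle
  have := hle i
  simp only [Finsupp.single_eq_same] at this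
  exact absurd (hc i) (not_lt.mpr this)

/-- Over every field of characteristic 3 there is a hypergraph without repeated edges and a fully
unbalanced hypergraph polynomial whose Alon-Tarsi number exceeds `2 ⌈ed⌉ + 1`. -/
theorem result (F : Type) [Field F] [CharP F 3] :
    ∃ (n : ℕ) (E : Finset (Finset (Fin n))) (a : Finset (Fin n) → Fin n → F),
      0 < n ∧ (∀ e ∈ E, 2 ≤ e.card) ∧ (∀ e ∈ E, ∀ i ∈ e, a e i ≠ 0) ∧
      (∀ e ∈ E, ∃ i ∈ e, ∃ j ∈ e, a e i ≠ a e j) ∧
      2 * ⌈edgeDensity E⌉₊ + 1 < alonTarsi (hyperPoly E a) := by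
  have h3 : (3 : F) = 0 := by exact_mod_cast CharP.cast_eq_zero F 3
  have hne : (-1 : F) ≠ 1 := by
    intro h
    have : (1 : F) = 0 := by linear_combination h3 + h
    exact one_ne_zero this
  let a : Finset (Fin 5) → Fin 5 → F := fun e i => if neg e i then -1 else 1
  have ha : ∀ e i, a e i ≠ 0 := by
    intro e i; simp only [a]; split_ifs <;> simp
  refine ⟨5, edges, a, by norm_num, by decide, fun e _ i _ => ha e i, ?_, ?_⟩
  · have : ∀ e ∈ edges, ∃ i ∈ e, ∃ j ∈ e, neg e i ∧ ¬ neg e j := by decide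
    intro e he
    obtain ⟨i, hi, j, hj, h1, h2⟩ := this e he
    exact ⟨i, hi, j, hj, by simpa only [a, if_pos h1, if_neg h2] using hne⟩
  have hed : ⌈edgeDensity edges⌉₊ ≤ 1 := by
    rw [Nat.ceil_le]
    apply Real.sSup_le _ (by norm_num)
    rintro r ⟨X, hX, rfl⟩
    have : ∀ X : Finset (Fin 5), (edges.filter (fun e => e ⊆ X)).card ≤ X.card := by decide
    have h1 : (0 : ℝ) < X.card := by exact_mod_cast hX.card_pos
    rw [div_le_iff₀ h1, Nat.cast_one, one_mul]
    exact_mod_cast this X
  have hp0 : hyperPoly edges a ≠ 0 := by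
    unfold hyperPoly
    rw [prod_ne_zero_iff]
    intro e he h0
    have : ∀ e ∈ edges, e.Nonempty := by decide
    obtain ⟨i, hi⟩ := this e he
    have h1 := congrArg (eval (fun j => if j = i then (1 : F) else 0)) h0
    simp only [map_sum, map_mul, eval_C, eval_X, mul_ite, mul_one, mul_zero, sum_ite_eq', hi,
      if_true, map_zero] at h1
    exact ha e i h1
  have h3' : (3 : MvPolynomial (Fin 5) F) = 0 := by
    have := congrArg (C : F →+* MvPolynomial (Fin 5) F) h3
    rwa [map_ofNat, map_zero] at this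
  have hform : hyperPoly edges a =
      (X 1 - X 2 + X 3) * ((-X 0 + X 2 + X 3 + X 4) * ((X 0 - X 1 + X 3 - X 4) *
        (X 0 + X 1 + X 2 - X 4))) := by
    unfold hyperPoly edges
    rw [prod_insert (by decide), prod_insert (by decide), prod_insert (by decide), prod_singleton]
    simp only [a]
    repeat rw [sum_insert (by decide)]
    simp only [sum_singleton]
    simp (decide := true) only [if_true, if_false, map_neg, map_one]
    ring
  have : CharP (MvPolynomial (Fin 5) F) 3 := inferInstance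
  have : Fact (Nat.Prime 3) := ⟨Nat.prime_three⟩
  let x : MvPolynomial (Fin 5) F := X 1 - X 2 + X 3
  let y : MvPolynomial (Fin 5) F := X 0 + X 1 + X 2 - X 4
  have hx : x ^ 3 = X 1 ^ 3 - X 2 ^ 3 + X 3 ^ 3 := by
    simp only [x, add_pow_char, sub_pow_char]
  have hy : y ^ 3 = X 0 ^ 3 + X 1 ^ 3 + X 2 ^ 3 - X 4 ^ 3 := by
    simp only [y, add_pow_char, sub_pow_char]
  have hform2 : hyperPoly edges a = ∑ i, X i ^ 3 * ![-x, y - x, -y - x, y, x] i := by
    have e1 : (-X 0 + X 2 + X 3 + X 4 : MvPolynomial (Fin 5) F) = x - y := by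
      simp only [x, y]; linear_combination (X 2) * h3'
    have e2 : (X 0 - X 1 + X 3 - X 4 : MvPolynomial (Fin 5) F) = x + y := by
      simp only [x, y]; linear_combination (-X 1) * h3'
    rw [hform, e1, e2, Fin.sum_univ_five]
    simp only [Matrix.cons_val_zero, Matrix.cons_val_one, Matrix.cons_val]
    change x * ((x - y) * ((x + y) * y)) = _
    linear_combination y * hx - x * hy
  have hne' : {m : ℕ | ∃ α ∈ (hyperPoly edges a).support,
      (∑ i, α i) = (hyperPoly edges a).totalDegree ∧ m = univ.sup (fun i => α i)}.Nonempty := by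
    obtain ⟨α, hα, h⟩ := exists_mem_eq_sup _ (support_nonempty.mpr hp0)
      (fun s : Fin 5 →₀ ℕ => s.sum fun _ e => e)
    refine ⟨_, α, hα, ?_, rfl⟩
    rw [totalDegree, h, Finsupp.sum_fintype _ _ (fun _ => rfl)]
  obtain ⟨α, hα, _, h⟩ := Nat.sInf_mem hne'
  rw [hform2] at hα
  obtain ⟨i, hi⟩ := cube_support _ α hα
  have h4 : α i ≤ univ.sup (fun i => α i) := le_sup (f := fun i => α i) (mem_univ i)
  unfold alonTarsi
  omega

end Pool.Agent.Results.MP_3821a3_co.CharThree
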